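import Pool.Agent.H81.EDM.UPB

/-! (DI) the inequality for mixed degrees. -/

set_option autoImplicit false

namespace Pool.Agent.H81.EDM

open MvPolynomial
open Pool.Agent.H13.EDM
open Pool.Agent.H8.TD (lc dg Wsp)

section

variable {k K : Type} [Field k] [Field K] [Algebra k K]

theorem lc_cons {a : ℕ} (c : k) (s : Fin a → k) (x : K) (φ : Fin a → K) :
    lc (Fin.cons c s : Fin (a + 1) → k) (Fin.cons x φ : Fin (a + 1) → K) = c • x + lc s φ := by
  unfold lc
  rw [Fin.sum_univ_succ]
  simp only [Fin.cons_zero, Fin.cons_succ]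

/-- the degree of the functions `y l`, `l < j`, and members of `B` -/
noncomputable def vl {n a : ℕ} (k : Type) {K : Type} [Field k] [Field K] [Algebra k K] (j : ℕ)
    (B : Fin a → K) (y : Fin n → K) (t : Fin n → Fin a → k) : ℕ :=
  dg k (Set.range fun l : Fin n => if (l : ℕ) < j then y l else lc (t l) B)

theorem vl_max (hBND : T_BND) [Infinite k] {n a : ℕ} (j : ℕ) (B : Fin a → K) (y : Fin n → K)
    (htr : Algebra.trdeg k K = n) (hFG : (⊤ : IntermediateField k K).FG) :
    ∃ t : Fin n → Fin a → k, ∀ t', vl k j B y t' ≤ vl k j B y t := by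
  obtain ⟨Y, hY⟩ := hBND n (a + 1) k k K (fun l => (Fin.cons (y l) B : Fin (a + 1) → K)) htr hFG
  refine exists_max (fun t => vl k j B y t) Y fun t => ?_
  have h1 := hY (fun l => if (l : ℕ) < j then (Fin.cons 1 0 : Fin (a + 1) → k) else
    (Fin.cons 0 (t l) : Fin (a + 1) → k))
  refine le_trans (le_of_eq ?_) h1
  unfold vl
  congr 2
  funext l
  split_ifs
  · rw [lc_cons, one_smul]
    unfold lc
    simp
  · rw [lc_cons, zero_smul, zero_add]

/-- completion of the first functions by members of `B` -/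
theorem vl_pos (hIFD : T_IFD) (hEXG : T_EXG) {n a j : ℕ} (hj : j ≤ n) (B : Fin a → K)
    (y : Fin n → K) (htr : Algebra.trdeg k K = n) (hFG : (⊤ : IntermediateField k K).FG)
    (halg : Algebra.IsAlgebraic (IntermediateField.adjoin k (Set.range B)) K)
    (hy : 1 ≤ dg k (Set.range y)) : ∃ t : Fin n → Fin a → k, 1 ≤ vl k j B y t := by
  have h1 : AlgebraicIndependent k y := (hIFD n k K y htr hFG).1 hy
  have h2 : AlgebraicIndependent k (fun i : Fin j => y (Fin.castLE hj i)) :=
    h1.comp _ (Fin.castLE_injective hj)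
  obtain ⟨t₀, ht₀⟩ := hEXG j (n - j) a k k K _ (fun _ => B) (by
    rw [htr]
    congr 1
    omega) hFG h2 (fun _ => halg)
  refine ⟨fun l => if h : (l : ℕ) < j then 0 else t₀ ⟨l - j, by omega⟩, ?_⟩
  refine le_trans ht₀ (le_of_eq ?_)
  unfold vl
  congr 1
  ext x
  simp only [Set.mem_union, Set.mem_range]
  constructor
  · rintro (⟨i, rfl⟩ | ⟨i, rfl⟩)
    · exact ⟨Fin.castLE hj i, by
        have : ((Fin.castLE hj i : Fin n) : ℕ) < j := i.2
        rw [if_pos this]⟩
    · refine ⟨⟨i + j, by omega⟩, ?_⟩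
      have h3 : ¬ (i : ℕ) + j < j := by omega
      simp only [h3, if_false, dif_neg, not_false_eq_true]
      congr 2
      apply Fin.ext
      simp
  · rintro ⟨l, rfl⟩
    by_cases hl : (l : ℕ) < j
    · left
      refine ⟨⟨l, hl⟩, ?_⟩
      rw [if_pos hl]
      rfl
    · right
      refine ⟨⟨l - j, by omega⟩, ?_⟩
      rw [if_neg hl, dif_neg hl]

theorem range_update {n : ℕ} (y : Fin (n + 1) → K) (i : Fin (n + 1)) (v : K) :
    Set.range (Function.update y i v) = (Set.range fun l => y (i.succAbove l)) ∪ {v} := by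
  ext x
  simp only [Set.mem_union, Set.mem_range, Set.mem_singleton_iff]
  constructor
  · rintro ⟨l, rfl⟩
    by_cases hl : l = i
    · right
      rw [hl, Function.update_self]
    · left
      obtain ⟨m, hm⟩ := Fin.exists_succAbove_eq hl
      exact ⟨m, by rw [hm, Function.update_of_ne hl]⟩
  · rintro (⟨l, rfl⟩ | rfl)
    · exact ⟨i.succAbove l, by rw [Function.update_of_ne (Fin.succAbove_ne i l)]⟩
    · exact ⟨i, by rw [Function.update_self]⟩

/-- one function is replaced by a member of `B` -/
theorem upd_pos (hIFD : T_IFD) (hEXG : T_EXG) {n a : ℕ} (B : Fin a → K)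
    (y : Fin n → K) (i : Fin n) (htr : Algebra.trdeg k K = n)
    (hFG : (⊤ : IntermediateField k K).FG)
    (halg : Algebra.IsAlgebraic (IntermediateField.adjoin k (Set.range B)) K)
    (hy : 1 ≤ dg k (Set.range y)) :
    ∃ u : Fin a → k, 1 ≤ dg k (Set.range (Function.update y i (lc u B))) := by
  obtain ⟨n', rfl⟩ : ∃ n', n = n' + 1 := ⟨n - 1, by have := i.2; omega⟩
  have h1 : AlgebraicIndependent k y := (hIFD (n' + 1) k K y htr hFG).1 hy
  have h2 : AlgebraicIndependent k (fun l : Fin n' => y (i.succAbove l)) :=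
    h1.comp _ Fin.succAbove_right_injective
  obtain ⟨t, ht⟩ := hEXG n' 1 a k k K _ (fun _ => B) htr hFG h2 (fun _ => halg)
  refine ⟨t 0, ?_⟩
  rw [range_update]
  refine le_trans ht (le_of_eq ?_)
  congr 2
  ext x
  simp only [Set.mem_range, Set.mem_singleton_iff]
  constructor
  · rintro ⟨l, rfl⟩
    rw [Subsingleton.elim l 0]
  · rintro rfl
    exact ⟨0, rfl⟩

end

theorem pf_DI (hIFD : T_IFD) (hEXG : T_EXG) (hBND : T_BND) (hMDM : T_MDM) (hGNM : T_GNM)
    (hSTP : T_STP) : T_DI := by
  intro n a j k K _ _ _ _ A B S htr hFG hj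
  have hinf : Infinite k := CharZero.infinite k
  have hone : ∀ m : ℕ, 1 ≤ m.factorial := fun m => Nat.factorial_pos m
  rcases Nat.eq_zero_or_pos (md k (fun _ : Fin n => B)) with hQ | hQ
  · rw [hQ, Nat.mul_zero]
    exact Nat.zero_le _
  rcases Nat.eq_zero_or_pos (md k (fun i : Fin n => if (i : ℕ) < j then A else S i)) with hD | hD
  · rw [hD, Nat.zero_mul]
    exact Nat.zero_le _
  set Q := md k (fun _ : Fin n => B) with hQd
  set D₀ := md k (fun i : Fin n => if (i : ℕ) < j then A else S i) with hDd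
  obtain ⟨s, hs⟩ := (hMDM n a k K (fun i : Fin n => if (i : ℕ) < j then A else S i) htr hFG).2
  obtain ⟨hBle, b₀, hb₀⟩ := hMDM n a k K (fun _ : Fin n => B) htr hFG
  rw [← hDd] at hs
  rw [← hQd] at hb₀ hBle
  set y₀ : Fin n → K := fun i => lc (s i) (if (i : ℕ) < j then A else S i) with hy₀
  set z₀ : Fin n → K := fun i => lc (b₀ i) B with hz₀
  -- the field is algebraic over the field of the system
  have hfin : Module.Finite (IntermediateField.adjoin k (Set.range z₀)) K :=
    Module.finite_of_finrank_pos (by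
      have : dg k (Set.range z₀) = Q := hb₀
      unfold dg at this
      omega)
  have halg0 : Algebra.IsAlgebraic (IntermediateField.adjoin k (Set.range z₀)) K :=
    Algebra.IsAlgebraic.of_finite _ _
  have halg : Algebra.IsAlgebraic (IntermediateField.adjoin k (Set.range B)) K := by
    refine isAlg_mono ?_ halg0
    rintro ⟨x, hx⟩
    have h2 : IntermediateField.adjoin k (Set.range z₀) ≤
        IntermediateField.adjoin k (Set.range B) := by
      refine IntermediateField.adjoin_le_iff.2 ?_
      rintro _ ⟨i, rfl⟩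
      show lc (b₀ i) B ∈ _
      unfold lc
      refine sum_mem fun l _ => ?_
      rw [Algebra.smul_def]
      exact mul_mem (IntermediateField.algebraMap_mem _ _)
        (IntermediateField.subset_adjoin _ _ ⟨l, rfl⟩)
    exact ⟨⟨x, h2 hx⟩, rfl⟩
  obtain ⟨t₀, ht₀⟩ := vl_max hBND j B y₀ htr hFG
  set P₀ := vl k j B y₀ t₀ with hP₀
  set C₁ := (n - j + 1).factorial with hC₁
  have hy₀1 : 1 ≤ dg k (Set.range y₀) := by
    rw [hs]
    exact hD
  have claim : ∀ i, i ≤ j → ∃ (y z : Fin n → K) (P : ℕ),
      (∀ l : Fin n, (l : ℕ) < i → ∃ u : Fin a → k, y l = lc u B ∧ z l = y l) ∧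
      (∀ l : Fin n, i ≤ (l : ℕ) → y l = y₀ l ∧ z l = z₀ l) ∧
      dg k (Set.range z) = Q ∧ 1 ≤ dg k (Set.range y) ∧ (∀ t, vl k j B y t ≤ P) ∧
      (∃ t, P ≤ vl k j B y t) ∧ 1 ≤ P ∧ D₀ * P ≤ C₁ ^ i * (P₀ * dg k (Set.range y)) := by
    intro i
    induction i with
    | zero =>
      intro _
      refine ⟨y₀, z₀, P₀, fun l hl => absurd hl (Nat.not_lt_zero _), fun l _ => ⟨rfl, rfl⟩, hb₀,
        hy₀1, ht₀, ⟨t₀, le_rfl⟩, ?_, ?_⟩
      · obtain ⟨t, ht⟩ := vl_pos hIFD hEXG hj B y₀ htr hFG halg hy₀1
        exact ht.trans (ht₀ t)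
      · rw [hs, pow_zero, one_mul, Nat.mul_comm]
    | succ i ih =>
      intro hij
      obtain ⟨y, z, P, h1, h2, h3, h4, h5, h6, h7, h8⟩ := ih (by omega)
      let ι : Fin n := ⟨i, by omega⟩
      obtain ⟨P₁, hP₁, hP₁'⟩ := hGNM n a k K B y ι htr hFG
      obtain ⟨P₂, hP₂, hP₂'⟩ := hGNM n a k K B z ι htr hFG
      obtain ⟨u, hu⟩ : ∃ u : Fin a → k, eval u (P₁ * P₂) ≠ 0 := by
        by_contra hcon
        push Not at hcon
        exact mul_ne_zero hP₁ hP₂ (MvPolynomial.funext fun u => by rw [hcon u, map_zero])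
      rw [map_mul] at hu
      have hu1 := hP₁' u (left_ne_zero_of_mul hu)
      have hu2 := hP₂' u (right_ne_zero_of_mul hu)
      set y' := Function.update y ι (lc u B) with hy'
      set z' := Function.update z ι (lc u B) with hz'
      have hz'mem : ∀ l, ∃ v : Fin a → k, z' l = lc v B := by
        intro l
        by_cases hl : l = ι
        · exact ⟨u, by rw [hl, hz', Function.update_self]⟩
        · rw [hz', Function.update_of_ne hl]
          rcases lt_or_ge (l : ℕ) i with hli | hli
          · obtain ⟨v, hv1, hv2⟩ := h1 l hli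
            exact ⟨v, by rw [hv2, hv1]⟩
          · exact ⟨b₀ l, (h2 l hli).2⟩
      have hz'Q : dg k (Set.range z') = Q := by
        apply le_antisymm
        · choose v hv using hz'mem
          have h9 := hBle v
          have h10 : (fun i => lc (v i) B) = z' := funext fun l => (hv l).symm
          rw [h10] at h9
          exact h9
        · have h9 := hu2 (b₀ ι)
          have h10 : z ι = lc (b₀ ι) B := (h2 ι le_rfl).2
          rw [← h10, Function.update_eq_self, h3] at h9
          exact h9
      have hy'1 : 1 ≤ dg k (Set.range y') := by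
        obtain ⟨v, hv⟩ := upd_pos hIFD hEXG B y ι htr hFG halg h4
        exact hv.trans (hu1 v)
      obtain ⟨t', ht'⟩ := vl_max hBND j B y' htr hFG
      have hP'1 : 1 ≤ vl k j B y' t' := by
        obtain ⟨t, ht⟩ := vl_pos hIFD hEXG hj B y' htr hFG halg hy'1
        exact ht.trans (ht' t)
      have hstp := hSTP n a j P (vl k j B y' t') k K B y ι u htr hFG hij hj hu1 ⟨t', le_rfl⟩ h5
      refine ⟨y', z', vl k j B y' t', ?_, ?_, hz'Q, hy'1, ht', ⟨t', le_rfl⟩, hP'1, ?_⟩
      · intro l hl
        by_cases hli : l = ι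
        · exact ⟨u, by rw [hli, hy', Function.update_self],
            by rw [hli, hy', hz', Function.update_self, Function.update_self]⟩
        · have hli' : (l : ℕ) < i := by
            have : (l : ℕ) ≠ i := fun h => hli (Fin.ext h)
            omega
          obtain ⟨v, hv1, hv2⟩ := h1 l hli'
          refine ⟨v, ?_, ?_⟩
          · rw [hy', Function.update_of_ne hli, hv1]
          · rw [hy', hz', Function.update_of_ne hli, Function.update_of_ne hli, hv2]
      · intro l hl
        have hli : l ≠ ι := by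
          rintro rfl
          have : (ι : ℕ) = i := rfl
          omega
        rw [hy', hz', Function.update_of_ne hli, Function.update_of_ne hli]
        exact h2 l (by omega)
      · have hpos : 0 < P * dg k (Set.range y) := Nat.mul_pos h7 h4
        refine Nat.le_of_mul_le_mul_right ?_ hpos
        calc D₀ * vl k j B y' t' * (P * dg k (Set.range y))
            = (D₀ * P) * (dg k (Set.range y) * vl k j B y' t') := by ring
          _ ≤ (C₁ ^ i * (P₀ * dg k (Set.range y))) * (C₁ * (P * dg k (Set.range y'))) :=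
              Nat.mul_le_mul h8 hstp
          _ = C₁ ^ (i + 1) * (P₀ * dg k (Set.range y')) * (P * dg k (Set.range y)) := by ring
  obtain ⟨y, z, P, h1, h2, h3, -, h5, -, -, h8⟩ := claim j le_rfl
  have hQP : Q ≤ P := by
    have h9 := h5 b₀
    refine le_trans (le_of_eq ?_) h9
    rw [← h3]
    unfold vl
    congr 2
    funext l
    split_ifs with hl
    · obtain ⟨u, hu1, hu2⟩ := h1 l hl
      exact hu2
    · exact (h2 l (by omega)).2
  have hyle : dg k (Set.range y) ≤ md k (fun i : Fin n => if (i : ℕ) < j then B else S i) := by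
    have h9 : ∀ l : Fin n, ∃ v : Fin a → k, y l = lc v (if (l : ℕ) < j then B else S l) := by
      intro l
      by_cases hl : (l : ℕ) < j
      · obtain ⟨u, hu1, -⟩ := h1 l hl
        exact ⟨u, by rw [if_pos hl, hu1]⟩
      · refine ⟨s l, ?_⟩
        rw [if_neg hl, (h2 l (by omega)).1, hy₀]
        simp only [if_neg hl]
    choose v hv using h9
    have h10 := (hMDM n a k K (fun i : Fin n => if (i : ℕ) < j then B else S i) htr hFG).1 v
    have h11 : (fun i : Fin n => lc (v i) (if (i : ℕ) < j then B else S i)) = y :=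
      funext fun l => (hv l).symm
    rw [h11] at h10
    exact h10
  have hP₀le : P₀ ≤ md k (fun i : Fin n => if (i : ℕ) < j then A else B) := by
    have h10 := (hMDM n a k K (fun i : Fin n => if (i : ℕ) < j then A else B) htr hFG).1
      (fun l => if (l : ℕ) < j then s l else t₀ l)
    refine le_trans (le_of_eq ?_) h10
    rw [hP₀]
    unfold vl
    congr 2
    funext l
    by_cases hl : (l : ℕ) < j
    · simp only [if_pos hl, hy₀]
    · simp only [if_neg hl]
  have hCn : C₁ ^ j ≤ n.factorial ^ n := by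
    rcases Nat.eq_zero_or_pos j with h0 | h0
    · rw [h0, pow_zero]
      exact Nat.one_le_pow _ _ (Nat.factorial_pos n)
    · exact (Nat.pow_le_pow_left (Nat.factorial_le (by omega)) j).trans
        (Nat.pow_le_pow_right (Nat.factorial_pos n) hj)
  calc D₀ * Q ≤ D₀ * P := Nat.mul_le_mul_left _ hQP
    _ ≤ C₁ ^ j * (P₀ * dg k (Set.range y)) := h8
    _ ≤ n.factorial ^ n * (md k (fun i : Fin n => if (i : ℕ) < j then A else B) *
        md k (fun i : Fin n => if (i : ℕ) < j then B else S i)) :=
      Nat.mul_le_mul hCn (Nat.mul_le_mul hP₀le hyle)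

end Pool.Agent.H81.EDM
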