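import Pool.Agent.H81.EDM.UPB

/-! (SIU) Siu's inequality. -/

set_option autoImplicit false

namespace Pool.Agent.H81.EDM

open Pool.Agent.H13.EDM
open Pool.Agent.H8.TD (lc dg Wsp)

theorem pf_SIU (hADS : T_ADS) (hTRD : T_TRD) (hIFD : T_IFD) (hFGU : T_FGU) (hBND : T_BND)
    (hDLG : T_DLG) (hUPB : T_UPB) (hZCT : T_ZCT) (hLIM : T_LIM) : T_SIU := by
  intro e b P Q Y k κ C _ _ _ _ _ _ _ _ _ B g ρ htr hFG ⟨t, ht⟩ hP hY
  rcases Nat.eq_zero_or_pos Q with hQ | hQ
  · subst hQ
    simp
  rcases Nat.eq_zero_or_pos (dg κ (insert g (Set.range ρ))) with hD | hD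
  · rw [hD]
    simp
  have hrange : Set.range (Fin.cons g ρ : Fin (e + 1) → C) = insert g (Set.range ρ) :=
    Fin.range_cons g ρ
  have hind : AlgebraicIndependent κ (Fin.cons g ρ : Fin (e + 1) → C) := by
    refine (hIFD (e + 1) κ C _ htr hFG).1 ?_
    rw [hrange]
    exact hD
  have hgt : Transcendental κ g := hind.transcendental 0
  have hρi : AlgebraicIndependent κ ρ := hind.comp Fin.succ (Fin.succ_injective e)
  have htr1 := trdeg_one hTRD hgt htr
  have hcz : CharZero (IntermediateField.adjoin κ {g}) :=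
    charZero_of_injective_algebraMap (algebraMap κ (IntermediateField.adjoin κ {g})).injective
  have hst : IsScalarTower k (IntermediateField.adjoin κ {g}) C :=
    IsScalarTower.of_algebraMap_eq fun _ => rfl
  -- the field is algebraic over the field of the system
  have hd1 : 1 ≤ dg κ (Set.range fun i => lc (t i) B) := hQ.trans_le ht
  have hfin : Module.Finite (IntermediateField.adjoin κ (Set.range fun i => lc (t i) B)) C :=
    Module.finite_of_finrank_pos hd1
  have halg0 : Algebra.IsAlgebraic (IntermediateField.adjoin κ (Set.range fun i => lc (t i) B)) C :=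
    Algebra.IsAlgebraic.of_finite _ _
  have hmem : ∀ s : Fin b → k, lc s B ∈ IntermediateField.adjoin κ (Set.range B) := by
    intro s
    unfold lc
    refine sum_mem fun i _ => ?_
    rw [Algebra.smul_def, IsScalarTower.algebraMap_apply k κ C]
    exact mul_mem (IntermediateField.algebraMap_mem _ _)
      (IntermediateField.subset_adjoin _ _ ⟨i, rfl⟩)
  have halg : Algebra.IsAlgebraic (IntermediateField.adjoin (IntermediateField.adjoin κ {g})
      (Set.range B)) C := by
    refine isAlg_mono ?_ halg0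
    rintro ⟨x, hx⟩
    have h1 : IntermediateField.adjoin κ (Set.range B) ≤
        (IntermediateField.adjoin (IntermediateField.adjoin κ {g})
          (Set.range B)).restrictScalars κ :=
      IntermediateField.adjoin_le_iff.2 (IntermediateField.subset_adjoin _ _)
    have h2 : IntermediateField.adjoin κ (Set.range fun i => lc (t i) B) ≤
        IntermediateField.adjoin κ (Set.range B) := by
      refine IntermediateField.adjoin_le_iff.2 ?_
      rintro _ ⟨i, rfl⟩
      exact hmem _
    exact ⟨⟨x, h1 (h2 hx)⟩, rfl⟩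
  -- generators of the field
  obtain ⟨S, hS⟩ := hFG
  have hFG : (⊤ : IntermediateField κ C).FG := ⟨S, hS⟩
  set A : Fin S.card → C := fun i => (S.equivFin.symm i : C) with hA
  have hAr : Set.range A = (S : Set C) := by
    ext x
    constructor
    · rintro ⟨i, rfl⟩
      exact (S.equivFin.symm i).2
    · intro hx
      exact ⟨S.equivFin ⟨x, hx⟩, by rw [hA]; simp⟩
  have hgen : IntermediateField.adjoin κ (Set.range A ∪ Set.range B) = ⊤ := by
    refine top_le_iff.1 ?_
    rw [← hS, ← hAr]
    exact IntermediateField.adjoin.mono _ _ _ Set.subset_union_left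
  obtain ⟨n₀, hn₀⟩ := hDLG 0 (e + 1) S.card b k κ C A B (fun i => i.elim0) t
    (by rw [htr, Nat.zero_add]) hgen
  obtain ⟨c₁, hc₁⟩ := hUPB e S.card b n₀ P k (IntermediateField.adjoin κ {g}) C A B htr1
    (hFGU κ C _ hFG) halg (fun s => by
      rw [hADS, Set.singleton_union]
      exact hP s)
  obtain ⟨Ya, hYa⟩ := bound_ins (k := k) hADS hTRD hFGU hBND A ρ htr hFG hρi
  refine hLIM e P Q (dg κ (insert g (Set.range ρ))) Y (n₀ + c₁) (n₀ * Ya + n₀ * Y) ?_
  intro l J hJ
  have h1 := hn₀ 0 l
  rw [Set.range_eq_empty, Set.empty_union, Nat.zero_add, Nat.zero_add, Nat.choose_self,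
    Nat.one_mul] at h1
  have h2 : J * Module.finrank (IntermediateField.adjoin κ {g})
      (Wsp (IntermediateField.adjoin κ {g}) A B n₀ (l + n₀)) <
      Module.finrank κ (Wsp κ A B n₀ (l + n₀)) := by
    refine lt_of_le_of_lt (Nat.mul_le_mul_left _ (hc₁ (l + n₀))) ?_
    rw [Nat.add_assoc]
    exact lt_of_lt_of_le hJ ((Nat.mul_le_mul_right _ ht).trans h1)
  have h3 := hZCT e S.card b n₀ (l + n₀) J Ya Y k κ C A B g ρ htr hFG hgt hYa hY h2
  refine h3.trans (le_of_eq ?_)
  ring

end Pool.Agent.H81.EDM
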