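import Pool.Agent.H13.EDM.Targets

/-! (UPB) the dimension of a space of sections, upper bound. -/

set_option autoImplicit false

namespace Pool.Agent.H81.EDM

open Pool.Agent.H13.EDM
open Pool.Agent.H8.TD (lc dg Wsp)

/-- algebraicity over a larger field -/
theorem isAlg_mono {F₁ F₂ C : Type} [Field F₁] [Field F₂] [Field C] [Algebra F₁ C] [Algebra F₂ C]
    (h : ∀ x : F₁, ∃ y : F₂, algebraMap F₂ C y = algebraMap F₁ C x)
    (hx : Algebra.IsAlgebraic F₁ C) : Algebra.IsAlgebraic F₂ C := by
  refine ⟨fun x => ?_⟩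
  obtain ⟨p, hp, hpx⟩ := hx.isAlgebraic x
  have h1 : p.map (algebraMap F₁ C) ∈ Polynomial.lifts (algebraMap F₂ C) := by
    rw [Polynomial.lifts_iff_coeff_lifts]
    intro n
    rw [Polynomial.coeff_map]
    obtain ⟨y, hy⟩ := h (p.coeff n)
    exact ⟨y, hy⟩
  obtain ⟨q, hq⟩ := (Polynomial.mem_lifts _).1 h1
  refine ⟨q, ?_, ?_⟩
  · rintro rfl
    rw [Polynomial.map_zero] at hq
    exact hp ((Polynomial.map_eq_zero _).1 hq.symm)
  · rw [Polynomial.aeval_def, ← Polynomial.eval_map, hq, Polynomial.eval_map]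
    exact hpx

theorem exists_max {α : Type*} [Nonempty α] (f : α → ℕ) (Y : ℕ) (h : ∀ a, f a ≤ Y) :
    ∃ a, ∀ b, f b ≤ f a := by
  have hb : BddAbove (Set.range f) := ⟨Y, by rintro _ ⟨a, rfl⟩; exact h a⟩
  obtain ⟨a, ha⟩ := Nat.sSup_mem (Set.range_nonempty f) hb
  exact ⟨a, fun b => by rw [ha]; exact le_csSup hb ⟨b, rfl⟩⟩

/-- the field generated by one transcendental element -/
theorem trdeg_one (hTRD : T_TRD) {e : ℕ} {κ C : Type} [Field κ] [Field C] [Algebra κ C] {g : C}
    (hg : Transcendental κ g) (htr : Algebra.trdeg κ C = (e + 1 : ℕ)) :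
    Algebra.trdeg (IntermediateField.adjoin κ {g}) C = e := by
  have h1 : AlgebraicIndependent κ (fun _ : Fin 1 => g) := by
    rw [algebraicIndependent_unique_type_iff]
    exact hg
  have h2 := hTRD 1 e κ C (fun _ : Fin 1 => g) h1 (by rw [htr, Nat.add_comm])
  rw [Set.range_const] at h2
  exact h2

/-- bounds for the degrees on a curve -/
theorem bound_ins (hADS : T_ADS) (hTRD : T_TRD) (hFGU : T_FGU) (hBND : T_BND) {e a : ℕ}
    {k κ C : Type} [Field k] [Infinite k] [Field κ] [Field C] [Algebra k κ] [Algebra κ C]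
    [Algebra k C] [IsScalarTower k κ C] (A : Fin a → C) (ρ : Fin e → C)
    (htr : Algebra.trdeg κ C = (e + 1 : ℕ)) (hFG : (⊤ : IntermediateField κ C).FG)
    (hρ : AlgebraicIndependent κ ρ) :
    ∃ Ya : ℕ, ∀ s : Fin a → k, dg κ (insert (lc s A) (Set.range ρ)) ≤ Ya := by
  have h1 := hTRD e 1 κ C ρ hρ htr
  have hst : IsScalarTower k (IntermediateField.adjoin κ (Set.range ρ)) C :=
    IsScalarTower.of_algebraMap_eq fun _ => rfl
  obtain ⟨Y, hY⟩ := hBND 1 a k (IntermediateField.adjoin κ (Set.range ρ)) C (fun _ => A) h1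
    (hFGU κ C _ hFG)
  refine ⟨Y, fun s => ?_⟩
  have h2 := hY (fun _ => s)
  rw [Set.range_const, hADS, Set.union_comm, Set.singleton_union] at h2
  exact h2

theorem pf_UPB (hADS : T_ADS) (hTRD : T_TRD) (hIFD : T_IFD) (hFGU : T_FGU) (hEXG : T_EXG)
    (hBND : T_BND) (hZCT : T_ZCT) : T_UPB := by
  intro d
  induction d with
  | zero =>
    intro a b n₀ Y k κ C _ _ _ _ _ _ _ _ _ A B htr hFG _ hY
    have hs := hY (fun i => i.elim0)
    have h0 : (Set.range fun i : Fin 0 => lc ((fun i => i.elim0 : Fin 0 → Fin b → k) i) B) = ∅ :=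
      Set.range_eq_empty _
    rw [h0] at hs
    have h1 : 1 ≤ dg κ (∅ : Set C) := by
      have h2 := (hIFD 0 κ C (fun i => i.elim0) htr hFG).2 algebraicIndependent_empty_type
      rwa [Set.range_eq_empty] at h2
    have h3 : dg κ (∅ : Set C) = Module.finrank κ C := by
      unfold dg
      rw [IntermediateField.adjoin_empty, IntermediateField.finrank_bot']
    have hfin : Module.Finite κ C := Module.finite_of_finrank_pos (by omega)
    refine ⟨0, fun t => ?_⟩
    have h4 := Submodule.finrank_le (Wsp κ A B n₀ t)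
    rw [pow_zero, mul_one]
    omega
  | succ d ih =>
    intro a b n₀ Y k κ C _ _ _ _ _ _ _ _ _ A B htr hFG halg hY
    obtain ⟨s₀, hs₀⟩ := exists_max
      (fun s : Fin (d + 1) → Fin b → k => dg κ (Set.range fun i => lc (s i) B)) Y hY
    set Y₀ := dg κ (Set.range fun i => lc (s₀ i) B) with hY₀
    have hY₀Y : Y₀ ≤ Y := hY s₀
    have hY1 : 1 ≤ Y₀ := by
      obtain ⟨t, ht⟩ := hEXG 0 (d + 1) b k κ C (fun i => i.elim0) (fun _ => B)
        (by rw [htr, Nat.zero_add]) hFG algebraicIndependent_empty_type (fun _ => halg)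
      rw [Set.range_eq_empty, Set.empty_union] at ht
      exact ht.trans (hs₀ t)
    have hind : AlgebraicIndependent κ (fun i => lc (s₀ i) B) :=
      (hIFD (d + 1) κ C _ htr hFG).1 hY1
    set g := lc (s₀ 0) B with hg
    set ρ : Fin d → C := fun i => lc (s₀ i.succ) B with hρ
    have hgt : Transcendental κ g := hind.transcendental 0
    have hρi : AlgebraicIndependent κ ρ := hind.comp Fin.succ (Fin.succ_injective d)
    have hrange : ∀ s : Fin d → Fin b → k,
        (Set.range fun i => lc ((Fin.cons (s₀ 0) s : Fin (d + 1) → Fin b → k) i) B) =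
          insert g (Set.range fun i => lc (s i) B) := by
      intro s
      ext x
      simp only [Set.mem_range, Set.mem_insert_iff]
      constructor
      · rintro ⟨i, rfl⟩
        refine Fin.cases ?_ (fun j => ?_) i
        · left
          rw [Fin.cons_zero]
        · right
          exact ⟨j, by rw [Fin.cons_succ]⟩
      · rintro (rfl | ⟨j, rfl⟩)
        · exact ⟨0, by rw [Fin.cons_zero]⟩
        · exact ⟨j.succ, by rw [Fin.cons_succ]⟩
    have hself : (Fin.cons (s₀ 0) (fun i : Fin d => s₀ i.succ) : Fin (d + 1) → Fin b → k) = s₀ :=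
      Fin.cons_self_tail s₀
    have hY₀' : Y₀ = dg κ (insert g (Set.range ρ)) := by
      rw [hY₀, hρ, ← hrange, hself]
    have htr1 := trdeg_one hTRD hgt htr
    have hcz : CharZero (IntermediateField.adjoin κ {g}) :=
      charZero_of_injective_algebraMap (algebraMap κ (IntermediateField.adjoin κ {g})).injective
    have hst : IsScalarTower k (IntermediateField.adjoin κ {g}) C :=
      IsScalarTower.of_algebraMap_eq fun _ => rfl
    obtain ⟨c₁, hc₁⟩ := ih a b n₀ Y₀ k (IntermediateField.adjoin κ {g}) C A B htr1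
      (hFGU κ C _ hFG) (by
        refine isAlg_mono ?_ halg
        rintro ⟨x, hx⟩
        have h1 : IntermediateField.adjoin κ (Set.range B) ≤
            (IntermediateField.adjoin (IntermediateField.adjoin κ {g})
              (Set.range B)).restrictScalars κ :=
          IntermediateField.adjoin_le_iff.2 (IntermediateField.subset_adjoin _ _)
        exact ⟨⟨x, h1 hx⟩, rfl⟩)
      (by
        intro s
        rw [hADS, Set.singleton_union, ← hrange]
        exact hs₀ _)
    obtain ⟨Ya, hYa⟩ := bound_ins (k := k) hADS hTRD hFGU hBND A ρ htr hFG hρi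
    refine ⟨max (n₀ * Ya + 1) c₁, fun t => ?_⟩
    have hle : Module.finrank κ (Wsp κ A B n₀ t) ≤
        (t + n₀ * Ya + 1) * (Y₀ * (t + c₁) ^ d) := by
      by_contra hlt
      rw [not_le] at hlt
      have h1 : (t + n₀ * Ya + 1) * Module.finrank (IntermediateField.adjoin κ {g})
          (Wsp (IntermediateField.adjoin κ {g}) A B n₀ t) < Module.finrank κ (Wsp κ A B n₀ t) :=
        lt_of_le_of_lt (Nat.mul_le_mul_left _ (hc₁ t)) hlt
      have h2 := hZCT d a b n₀ t (t + n₀ * Ya + 1) Ya Y₀ k κ C A B g ρ htr hFG hgt hYa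
        (fun s => by
          have h3 := hs₀ (Fin.cons s (fun i : Fin d => s₀ i.succ))
          refine le_trans (le_of_eq ?_) h3
          congr 1
          ext x
          simp only [Set.mem_range, Set.mem_insert_iff]
          constructor
          · rintro (rfl | ⟨j, rfl⟩)
            · exact ⟨0, by rw [Fin.cons_zero]⟩
            · exact ⟨j.succ, by rw [Fin.cons_succ]⟩
          · rintro ⟨i, rfl⟩
            refine Fin.cases ?_ (fun j => ?_) i
            · left
              rw [Fin.cons_zero]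
            · right
              exact ⟨j, by rw [Fin.cons_succ]⟩) h1
      rw [← hY₀'] at h2
      have h3 : n₀ * Ya * 1 ≤ n₀ * Ya * Y₀ := Nat.mul_le_mul_left _ hY1
      have h4 : (t + n₀ * Ya + 1) * Y₀ = t * Y₀ + n₀ * Ya * Y₀ + Y₀ := by ring
      omega
    refine hle.trans ?_
    calc (t + n₀ * Ya + 1) * (Y₀ * (t + c₁) ^ d)
        ≤ (t + max (n₀ * Ya + 1) c₁) * (Y * (t + max (n₀ * Ya + 1) c₁) ^ d) := by
          refine Nat.mul_le_mul ?_ (Nat.mul_le_mul hY₀Y (Nat.pow_le_pow_left ?_ d))
          · have := le_max_left (n₀ * Ya + 1) c₁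
            omega
          · have := le_max_right (n₀ * Ya + 1) c₁
            omega
      _ = Y * (t + max (n₀ * Ya + 1) c₁) ^ (d + 1) := by ring

end Pool.Agent.H81.EDM
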